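import Pool.Agent.Helper156.Nv.Coh

/-! Alternating coboundaries on functions on (semi)simplicial families of sets. -/

namespace Pool.Agent.Helper156.Nv

universe u v w

section Alt

variable (k : Type u) [CommRing k]

variable {k}

theorem altd_apply {S : ℕ → Type v} (face : ∀ n, Fin (n + 2) → S (n + 1) → S n) (n : ℕ)
    (f : S n → k) (σ : S (n + 1)) :
    altd k face n f σ = ∑ i : Fin (n + 2), (-1 : k) ^ (i : ℕ) * f (face n i σ) := rfl

/-- the basic cancellation for double alternating sums -/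
theorem alt_cancel (n : ℕ) (F : Fin (n + 2) → Fin (n + 3) → k)
    (h : ∀ i j : Fin (n + 2), i ≤ j → F i j.succ = F j i.castSucc) :
    ∑ j : Fin (n + 3), ∑ i : Fin (n + 2), (-1 : k) ^ (j : ℕ) * ((-1 : k) ^ (i : ℕ) * F i j) = 0 := by
  classical
  rw [← Finset.sum_product']
  let S : Finset (Fin (n + 3) × Fin (n + 2)) := Finset.univ.filter (fun ij => (ij.1 : ℕ) ≤ (ij.2 : ℕ))
  rw [Finset.univ_product_univ, ← Finset.sum_add_sum_compl S, ← eq_neg_iff_add_eq_zero,
    ← Finset.sum_neg_distrib]
  let φ : ∀ ij : Fin (n + 3) × Fin (n + 2), ij ∈ S → Fin (n + 3) × Fin (n + 2) := fun ij hij =>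
    (ij.2.succ, Fin.castLT ij.1 (lt_of_le_of_lt (Finset.mem_filter.mp hij).right (Fin.is_lt ij.2)))
  apply Finset.sum_bij φ
  · intro ij hij
    simp only [S, φ, Finset.mem_compl, Finset.mem_filter, Finset.mem_univ, true_and,
      Fin.val_succ, Fin.val_castLT] at hij ⊢
    omega
  · rintro ⟨i, j⟩ hij ⟨i', j'⟩ hij' h
    simp only [φ, Prod.mk.injEq, Fin.succ_inj] at h
    obtain ⟨h1, h2⟩ := h
    have h3 : (i : ℕ) = (i' : ℕ) := by
      have := congrArg (fun x : Fin (n + 2) => (x : ℕ)) h2
      simpa using this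
    rw [Prod.mk.injEq]
    exact ⟨Fin.ext h3, h1⟩
  · rintro ⟨i, j⟩ hij
    simp only [S, Finset.mem_compl, Finset.mem_filter, Finset.mem_univ, true_and, not_le] at hij
    have hi : 0 < (i : ℕ) := by omega
    have hi0 : i ≠ 0 := by
      intro h; rw [h] at hi; simp at hi
    refine ⟨(j.castSucc, i.pred hi0), ?_, ?_⟩
    · simp only [S, Finset.mem_filter, Finset.mem_univ, true_and, Fin.val_castSucc, Fin.val_pred]
      omega
    · simp only [φ, Prod.mk.injEq, Fin.succ_pred, true_and]
      apply Fin.ext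
      simp
  · rintro ⟨j, i⟩ hij
    simp only [S, Finset.mem_filter, Finset.mem_univ, true_and] at hij
    have h1 : (Fin.castLT j (lt_of_le_of_lt hij (Fin.is_lt i)) : Fin (n + 2)) ≤ i := by
      rw [Fin.le_def]; simpa using hij
    have h2 := h _ _ h1
    have h3 : (Fin.castLT j (lt_of_le_of_lt hij (Fin.is_lt i)) : Fin (n + 2)).castSucc = j := by
      apply Fin.ext; simp
    rw [h3] at h2
    simp only [φ, Fin.val_succ, Fin.val_castLT]
    rw [h2]
    ring

theorem altd_altd {S : ℕ → Type v} (face : ∀ n, Fin (n + 2) → S (n + 1) → S n)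
    (h : ∀ n (i j : Fin (n + 2)) (σ : S (n + 2)), i ≤ j →
      face n i (face (n + 1) j.succ σ) = face n j (face (n + 1) i.castSucc σ))
    (n : ℕ) (f : S n → k) : altd k face (n + 1) (altd k face n f) = 0 := by
  funext σ
  simp only [altd_apply, Finset.mul_sum, Pi.zero_apply]
  apply alt_cancel n (fun i j => f (face n i (face (n + 1) j σ)))
  intro i j hij
  simp only [h n i j σ hij]

theorem succAbove_comm {n : ℕ} (i j : Fin (n + 2)) (h : i ≤ j) (x : Fin (n + 1)) :
    (j.succ).succAbove (i.succAbove x) = (i.castSucc).succAbove (j.succAbove x) := by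
  rw [Fin.le_def] at h
  apply Fin.ext
  simp only [Fin.succAbove, Fin.lt_def]
  split_ifs <;> simp_all <;> omega

end Alt

end Pool.Agent.Helper156.Nv
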