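import Pool.Agent.Helper156.Nv.Sing

/-! Nerve theorem for singular cohomology (small cochains). -/

namespace Pool.Agent.Helper156.Nv

universe u v w

/-- Strict chains of length `n + 1` in a subset `Q` of a partial order. -/
abbrev Ch {P : Type u} [PartialOrder P] (Q : Set P) (n : ℕ) : Type u :=
  {c : Fin (n + 1) → P // StrictMono c ∧ ∀ i, c i ∈ Q}

/-- Faces of chains: removing the `i`-th element. -/
def cface {P : Type u} [PartialOrder P] {Q : Set P} (n : ℕ) (i : Fin (n + 2))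
    (c : Ch Q (n + 1)) : Ch Q n :=
  ⟨c.1 ∘ i.succAbove, c.2.1.comp (Fin.strictMono_succAbove i), fun _ => c.2.2 _⟩

/-- Cohomology of the order complex of `Q`. -/
abbrev OrdCoh (k : Type v) [CommRing k] {P : Type u} [PartialOrder P] (Q : Set P) (n : ℕ) :
    Type (max u v) :=
  Coh k (fun n => Ch Q n → k) (fun n => altd k (cface (Q := Q)) n) n

theorem cface_cface {P : Type u} [PartialOrder P] {Q : Set P} (n : ℕ) (i j : Fin (n + 2))
    (c : Ch Q (n + 2)) (h : i ≤ j) :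
    cface n i (cface (n + 1) j.succ c) = cface n j (cface (n + 1) i.castSucc c) := by
  apply Subtype.ext
  funext x
  simp only [cface, Function.comp_apply]
  rw [succAbove_comm i j h x]

section Nerve

variable {k : Type v} [CommRing k] {X : Type u} [TopologicalSpace X]

/-- Singular simplices contained in some member of the family. -/
abbrev Small (𝒞 : Set (Set X)) (n : ℕ) : Type u :=
  {σ : Sing X n // ∃ C ∈ 𝒞, Set.range σ ⊆ C}

/-- faces of small simplices -/
noncomputable def smface {𝒞 : Set (Set X)} (n : ℕ) (i : Fin (n + 2)) (σ : Small 𝒞 (n + 1)) :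
    Small 𝒞 n :=
  ⟨sface n i σ.1, by
    obtain ⟨C, hC, h⟩ := σ.2
    exact ⟨C, hC, (range_sface n i σ.1).trans h⟩⟩

abbrev SmallCoh (k : Type v) [CommRing k] (𝒞 : Set (Set X)) (n : ℕ) : Type (max u v) :=
  Coh k (fun n => Small 𝒞 n → k) (fun n => altd k (smface (𝒞 := 𝒞)) n) n

/-- Pairs (chain, simplex inside the smallest member). -/
abbrev ZZ (𝒞 : Set (Set X)) (p q : ℕ) : Type u :=
  {x : Ch 𝒞 p × Sing X q // Set.range x.2 ⊆ x.1.1 0}

noncomputable def face1 {𝒞 : Set (Set X)} (q p : ℕ) (i : Fin (p + 2)) (z : ZZ 𝒞 (p + 1) q) :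
    ZZ 𝒞 p q :=
  ⟨(cface p i z.1.1, z.1.2), z.2.trans (z.1.1.2.1.monotone (Fin.zero_le _))⟩

noncomputable def face2 {𝒞 : Set (Set X)} (p q : ℕ) (j : Fin (q + 2)) (z : ZZ 𝒞 p (q + 1)) :
    ZZ 𝒞 p q :=
  ⟨(z.1.1, sface q j z.1.2), (range_sface q j z.1.2).trans z.2⟩

/-- Cone data on a subset: an operator raising dimension, contracting singular simplices in `C`. -/
def ConeData (C : Set X) : Prop :=
  ∃ (pt : X) (K : ∀ q, Sing X q → Sing X (q + 1)), pt ∈ C ∧
    (∀ q (σ : Sing X q), Set.range σ ⊆ C → Set.range (K q σ) ⊆ C ∧ sface q 0 (K q σ) = σ) ∧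
    (∀ q (σ : Sing X (q + 1)), Set.range σ ⊆ C → ∀ i : Fin (q + 2),
      sface (q + 1) i.succ (K (q + 1) σ) = K q (sface q i σ)) ∧
    (∀ σ : Sing X 0, Set.range σ ⊆ C → sface 0 1 (K 0 σ) = ContinuousMap.const _ pt)

variable (𝒞 : Set (Set X))

theorem cons_strictMono {P : Type u} [PartialOrder P] {n : ℕ} (c : Fin (n + 1) → P)
    (hc : StrictMono c) (J : P) (hJ : J < c 0) :
    StrictMono (Fin.cons J c : Fin (n + 2) → P) := by
  rw [Fin.strictMono_iff_lt_succ]
  intro i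
  refine Fin.cases ?_ (fun i => ?_) i
  · simpa using hJ
  · have h1 : (Fin.cons J c : Fin (n + 2) → P) (i.succ).succ = c i.succ := by simp
    have h2 : (Fin.cons J c : Fin (n + 2) → P) (i.succ).castSucc = c i.castSucc := by
      rw [← Fin.succ_castSucc]; simp
    rw [h1, h2]
    exact hc Fin.castSucc_lt_succ

/-- prepend an element -/
def Ch.consC {P : Type u} [PartialOrder P] {Q : Set P} {n : ℕ} (c : Ch Q n) (J : P) (hJQ : J ∈ Q)
    (hJ : J < c.1 0) : Ch Q (n + 1) :=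
  ⟨Fin.cons J c.1, cons_strictMono c.1 c.2.1 J hJ, fun i => by
    refine Fin.cases ?_ (fun i => ?_) i
    · simpa using hJQ
    · simpa using c.2.2 i⟩

theorem consC_face_zero {P : Type u} [PartialOrder P] {Q : Set P} {n : ℕ} (c : Ch Q n) (J : P)
    (hJQ : J ∈ Q) (hJ : J < c.1 0) : cface n 0 (c.consC J hJQ hJ) = c := by
  apply Subtype.ext
  funext x
  simp [cface, Ch.consC]

theorem consC_face_succ {P : Type u} [PartialOrder P] {Q : Set P} {n : ℕ} (c : Ch Q (n + 1)) (J : P)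
    (hJQ : J ∈ Q) (hJ : J < c.1 0) (i : Fin (n + 2)) (h' : J < (cface n i c).1 0) :
    cface (n + 1) i.succ (c.consC J hJQ hJ) = (cface n i c).consC J hJQ h' := by
  apply Subtype.ext
  funext x
  refine Fin.cases ?_ (fun x => ?_) x
  · simp [cface, Ch.consC]
  · simp [cface, Ch.consC, Fin.removeNth]

theorem nerve_small [Nonempty X]
    (hcap : ∀ σ : Σ n, Sing X n, (∃ C ∈ 𝒞, Set.range σ.2 ⊆ C) →
      ∃ J ∈ 𝒞, Set.range σ.2 ⊆ J ∧ ∀ C ∈ 𝒞, Set.range σ.2 ⊆ C → J ⊆ C)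
    (hcone : ∀ C ∈ 𝒞, ConeData C) (n : ℕ) :
    Nonempty (SmallCoh k 𝒞 n ≃ₗ[k] OrdCoh k 𝒞 n) := by
  classical
  -- the least element
  have hJ' : ∀ (q : ℕ) (σ : Sing X q), ∃ J : Set X, (∃ C ∈ 𝒞, Set.range σ ⊆ C) →
      (J ∈ 𝒞 ∧ Set.range σ ⊆ J ∧ ∀ C ∈ 𝒞, Set.range σ ⊆ C → J ⊆ C) := by
    intro q σ
    by_cases h : ∃ C ∈ 𝒞, Set.range σ ⊆ C
    · obtain ⟨J, h1, h2, h3⟩ := hcap ⟨q, σ⟩ h
      exact ⟨J, fun _ => ⟨h1, h2, h3⟩⟩
    · exact ⟨∅, fun h' => absurd h' h⟩
  choose J hJ using hJ'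
  have hcone' : ∀ C : Set X, ∃ (pt : X) (K : ∀ q, Sing X q → Sing X (q + 1)), C ∈ 𝒞 → (pt ∈ C ∧
    (∀ q (σ : Sing X q), Set.range σ ⊆ C → Set.range (K q σ) ⊆ C ∧ sface q 0 (K q σ) = σ) ∧
    (∀ q (σ : Sing X (q + 1)), Set.range σ ⊆ C → ∀ i : Fin (q + 2),
      sface (q + 1) i.succ (K (q + 1) σ) = K q (sface q i σ)) ∧
    (∀ σ : Sing X 0, Set.range σ ⊆ C → sface 0 1 (K 0 σ) = ContinuousMap.const _ pt)) := by
    intro C
    by_cases h : C ∈ 𝒞
    · obtain ⟨pt, K, hh⟩ := hcone C h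
      exact ⟨pt, K, fun _ => hh⟩
    · exact ⟨Classical.arbitrary X, fun q _ => ContinuousMap.const _ (Classical.arbitrary X),
        fun h' => absurd h' h⟩
  choose pt K hcone' using hcone'
  have hpt := fun C hC => (hcone' C hC).1
  have hK1 := fun C hC => (hcone' C hC).2.1
  have hK2 := fun C hC => (hcone' C hC).2.2.1
  have hK3 := fun C hC => (hcone' C hC).2.2.2
  refine double_complex (k := k)
    (fun q => Small 𝒞 q → k) (fun q => altd k (smface (𝒞 := 𝒞)) q)
    (fun p => Ch 𝒞 p → k) (fun p => altd k (cface (Q := 𝒞)) p)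
    (fun p q => ZZ 𝒞 p q → k)
    (fun p q => altd k (S := fun p => ZZ 𝒞 p q) (fun p => face1 q p) p)
    (fun p q => altd k (S := fun q => ZZ 𝒞 p q) (fun q => face2 p q) q)
    (fun q => { toFun := fun f z => f ⟨z.1.2, z.1.1.1 0, z.1.1.2.2 0, z.2⟩
                map_add' := fun _ _ => rfl, map_smul' := fun _ _ => rfl })
    (fun p => { toFun := fun b z => b z.1.1
                map_add' := fun _ _ => rfl, map_smul' := fun _ _ => rfl })
    ?_ ?_ ?_ ?_ ?_ ?_ ?_ ?_ ?_ ?_ ?_ ?_ ?_ n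
  · -- d11
    intro p q f
    apply altd_altd
    intro n i j z hij
    apply Subtype.ext
    apply Prod.ext
    · exact cface_cface _ _ _ _ hij
    · rfl
  · -- d22
    intro p q f
    apply altd_altd
    intro n i j z hij
    apply Subtype.ext
    apply Prod.ext
    · rfl
    · exact sface_sface _ _ _ _ hij
  · -- d12
    intro p q f
    funext z
    simp only [altd_apply, Finset.mul_sum]
    rw [Finset.sum_comm]
    refine Finset.sum_congr rfl fun j _ => Finset.sum_congr rfl fun i _ => ?_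
    have : face2 (𝒞 := 𝒞) p q j (face1 (q + 1) p i z) = face1 q p i (face2 (p + 1) q j z) := rfl
    rw [this]
    ring
  · -- εd
    intro q f
    rfl
  · -- ηd
    intro p b
    rfl
  · -- εinj
    intro q f g hfg
    funext σ
    obtain ⟨σ, C, hC, hσ⟩ := σ
    have := congrFun hfg ⟨(⟨fun _ => C, fun a b hab => absurd hab (by
      have := Subsingleton.elim (α := Fin 1) a b; rw [this]; exact lt_irrefl _), fun _ => hC⟩, σ), hσ⟩
    exact this
  · -- ηinj
    intro p b b' hb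
    funext c
    have hc0 := c.2.2 0
    have := congrFun hb ⟨(c, ContinuousMap.const _ (pt (c.1 0))), by
      rintro _ ⟨x, rfl⟩
      exact hpt _ hc0⟩
    exact this
  · -- ε0
    intro q f
    funext z
    change altd k (S := fun p => ZZ 𝒞 p q) (fun p => face1 q p) 0 _ z = 0
    rw [altd_apply, Fin.sum_univ_two]
    simp [face1]
  · -- η0
    intro p b
    funext z
    change altd k (S := fun q => ZZ 𝒞 p q) (fun q => face2 p q) 0 _ z = 0
    rw [altd_apply, Fin.sum_univ_two]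
    simp [face2]
  · -- εex
    intro q f hf
    have key : ∀ (z z' : ZZ 𝒞 0 q), z.1.2 = z'.1.2 → f z = f z' := by
      have key1 : ∀ z : ZZ 𝒞 0 q, ∀ (h : J q z.1.2 ∈ 𝒞) (h' : Set.range z.1.2 ⊆ J q z.1.2),
          f z = f ⟨(⟨fun _ => J q z.1.2, fun a b hab => absurd hab (by
            have := Subsingleton.elim (α := Fin 1) a b; rw [this]; exact lt_irrefl _),
            fun _ => h⟩, z.1.2), h'⟩ := by
        rintro ⟨⟨c, σ⟩, hz⟩ h h'
        have hz' : Set.range σ ⊆ c.1 0 := hz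
        obtain ⟨hJ1, hJ2, hJ3⟩ := hJ q σ ⟨_, c.2.2 0, hz'⟩
        have hle : J q σ ⊆ c.1 0 := hJ3 _ (c.2.2 0) hz'
        rcases eq_or_lt_of_le (show J q σ ≤ c.1 0 from hle) with heq | hlt
        · congr 1
          apply Subtype.ext
          apply Prod.ext
          · apply Subtype.ext
            funext i
            have hi0 : i = 0 := Subsingleton.elim (α := Fin 1) i 0
            rw [hi0]
            exact heq.symm
          · rfl
        · have h2 := congrFun hf (⟨(c.consC (J q σ) hJ1 hlt, σ), hJ2⟩ : ZZ 𝒞 1 q)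
          rw [altd_apply, Fin.sum_univ_two] at h2
          simp only [Fin.val_zero, pow_zero, one_mul, Fin.val_one, pow_one, neg_mul,
            Pi.zero_apply] at h2
          have e0 : face1 q 0 0 (⟨(c.consC (J q σ) hJ1 hlt, σ), hJ2⟩ : ZZ 𝒞 1 q)
              = ⟨(c, σ), hz⟩ := by
            apply Subtype.ext
            apply Prod.ext
            · exact consC_face_zero c _ hJ1 hlt
            · rfl
          rw [e0] at h2
          rw [← sub_eq_add_neg, sub_eq_zero] at h2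
          rw [h2]
          congr 1
          apply Subtype.ext
          apply Prod.ext
          · apply Subtype.ext
            funext i
            have hi0 : i = 0 := Subsingleton.elim (α := Fin 1) i 0
            rw [hi0]
            simp [face1, cface, Ch.consC]
          · rfl
      intro z z' hzz
      obtain ⟨⟨c, σ⟩, hz⟩ := z
      obtain ⟨⟨c', σ'⟩, hz'⟩ := z'
      simp only at hzz
      subst hzz
      obtain ⟨hJ1, hJ2, hJ3⟩ := hJ q σ ⟨_, c.2.2 0, hz⟩
      rw [key1 ⟨(c, σ), hz⟩ hJ1 hJ2, key1 ⟨(c', σ), hz'⟩ hJ1 hJ2]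
    refine ⟨fun σ => f ⟨(⟨fun _ => J q σ.1, fun a b hab => absurd hab (by
      have := Subsingleton.elim (α := Fin 1) a b; rw [this]; exact lt_irrefl _),
      fun _ => (hJ q σ.1 σ.2).1⟩, σ.1), (hJ q σ.1 σ.2).2.1⟩, ?_⟩
    funext z
    exact key _ _ rfl
  · -- ηex
    intro p f hf
    refine ⟨fun c => f ⟨(c, ContinuousMap.const _ (pt (c.1 0))), by
      rintro _ ⟨x, rfl⟩
      exact hpt _ (c.2.2 0)⟩, ?_⟩
    funext z
    obtain ⟨⟨c, σ⟩, hz⟩ := z
    have hz' : Set.range σ ⊆ c.1 0 := hz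
    have hc0 := c.2.2 0
    have h2 := congrFun hf (⟨(c, K (c.1 0) 0 σ), (hK1 _ hc0 0 σ hz').1⟩ : ZZ 𝒞 p 1)
    rw [altd_apply, Fin.sum_univ_two] at h2
    simp only [Fin.val_zero, pow_zero, one_mul, Fin.val_one, pow_one, neg_mul,
      Pi.zero_apply] at h2
    have h3 := h2
    rw [← sub_eq_add_neg, sub_eq_zero] at h3
    have e0 : face2 p 0 0 (⟨(c, K (c.1 0) 0 σ), (hK1 _ hc0 0 σ hz').1⟩ : ZZ 𝒞 p 1)
        = ⟨(c, σ), hz⟩ := by
      apply Subtype.ext
      apply Prod.ext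
      · rfl
      · exact (hK1 _ hc0 0 σ hz').2
    have e1 : face2 p 0 1 (⟨(c, K (c.1 0) 0 σ), (hK1 _ hc0 0 σ hz').1⟩ : ZZ 𝒞 p 1)
        = ⟨(c, ContinuousMap.const _ (pt (c.1 0))), by
            rintro _ ⟨x, rfl⟩
            exact hpt _ (c.2.2 0)⟩ := by
      apply Subtype.ext
      apply Prod.ext
      · rfl
      · exact hK3 _ hc0 σ hz'
    rw [e0, e1] at h3
    exact h3.symm
  · -- ex1
    intro p q f hf
    let g : ZZ 𝒞 p q → k := fun z =>
      if h : J q z.1.2 ∈ 𝒞 ∧ Set.range z.1.2 ⊆ J q z.1.2 ∧ J q z.1.2 < z.1.1.1 0 then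
      f ⟨(z.1.1.consC (J q z.1.2) h.1 h.2.2, z.1.2), h.2.1⟩ else 0
    have gpos : ∀ (z : ZZ 𝒞 p q) (h : J q z.1.2 ∈ 𝒞 ∧ Set.range z.1.2 ⊆ J q z.1.2 ∧
        J q z.1.2 < z.1.1.1 0), g z = f ⟨(z.1.1.consC (J q z.1.2) h.1 h.2.2, z.1.2), h.2.1⟩ :=
      fun z h => dif_pos h
    have gneg : ∀ (z : ZZ 𝒞 p q) (h : ¬ (J q z.1.2 < z.1.1.1 0)), g z = 0 :=
      fun z h => dif_neg (fun h' => h h'.2.2)
    refine ⟨g, ?_⟩
    funext z
    obtain ⟨⟨c, σ⟩, hz⟩ := z
    have hz' : Set.range σ ⊆ c.1 0 := hz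
    obtain ⟨hJ1, hJ2, hJ3⟩ := hJ q σ ⟨_, c.2.2 0, hz'⟩
    have hle : J q σ ⊆ c.1 0 := hJ3 _ (c.2.2 0) hz'
    rw [altd_apply]
    rcases eq_or_lt_of_le (show J q σ ≤ c.1 0 from hle) with heq | hlt
    · rw [Fin.sum_univ_succ]
      have hlt1 : J q σ < (cface p 0 c).1 0 := by
        rw [heq]
        simp only [cface, Function.comp_apply]
        exact c.2.1 (by simp [Fin.succAbove])
      have hs : ∀ i : Fin (p + 1), (cface p i.succ c).1 0 = c.1 0 := by
        intro i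
        simp [cface]
      have e : ∑ i : Fin (p + 1), (-1 : k) ^ ((i.succ : Fin (p + 2)) : ℕ) *
          g (face1 q p i.succ ⟨(c, σ), hz⟩) = 0 := by
        apply Finset.sum_eq_zero
        intro i _
        rw [gneg, mul_zero]
        change ¬ (J q σ < (cface p i.succ c).1 0)
        rw [hs i, heq]; exact lt_irrefl _
      rw [e, gpos (face1 q p 0 ⟨(c, σ), hz⟩) ⟨hJ1, hJ2, hlt1⟩]
      simp only [Fin.val_zero, pow_zero, one_mul, add_zero]
      congr 1
      apply Subtype.ext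
      apply Prod.ext
      · apply Subtype.ext
        funext x
        refine Fin.cases ?_ (fun x => ?_) x
        · simp [Ch.consC, heq, face1]
        · simp [Ch.consC, cface, face1]
      · rfl
    · have hlti : ∀ i : Fin (p + 2), J q σ < (cface p i c).1 0 := by
        intro i
        refine lt_of_lt_of_le hlt ?_
        exact c.2.1.monotone (Fin.zero_le _)
      have h2 := congrFun hf (⟨(c.consC (J q σ) hJ1 hlt, σ), hJ2⟩ : ZZ 𝒞 (p + 2) q)
      rw [altd_apply, Fin.sum_univ_succ] at h2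
      simp only [Fin.val_zero, pow_zero, one_mul, Pi.zero_apply] at h2
      have e0 : face1 q (p + 1) 0 (⟨(c.consC (J q σ) hJ1 hlt, σ), hJ2⟩ : ZZ 𝒞 (p + 2) q)
          = ⟨(c, σ), hz⟩ := by
        apply Subtype.ext
        apply Prod.ext
        · exact consC_face_zero c _ hJ1 hlt
        · rfl
      rw [e0] at h2
      rw [eq_neg_of_add_eq_zero_left h2, ← Finset.sum_neg_distrib]
      refine Finset.sum_congr rfl fun i _ => ?_
      have e1 : face1 q (p + 1) i.succ (⟨(c.consC (J q σ) hJ1 hlt, σ), hJ2⟩ : ZZ 𝒞 (p + 2) q)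
          = ⟨((cface p i c).consC (J q σ) hJ1 (hlti i), σ), hJ2⟩ := by
        apply Subtype.ext
        apply Prod.ext
        · exact consC_face_succ c _ hJ1 hlt i (hlti i)
        · rfl
      rw [e1, gpos (face1 q p i ⟨(c, σ), hz⟩) ⟨hJ1, hJ2, hlti i⟩]
      simp only [face1, Fin.val_succ, pow_succ]
      ring
  · -- ex2
    intro p q f hf
    refine ⟨fun z => f ⟨(z.1.1, K (z.1.1.1 0) q z.1.2), (hK1 _ (z.1.1.2.2 0) q z.1.2 z.2).1⟩, ?_⟩
    funext z
    obtain ⟨⟨c, σ⟩, hz⟩ := z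
    have hz' : Set.range σ ⊆ c.1 0 := hz
    have hc0 := c.2.2 0
    have h2 := congrFun hf (⟨(c, K (c.1 0) (q + 1) σ), (hK1 _ hc0 _ σ hz').1⟩ : ZZ 𝒞 p (q + 2))
    rw [altd_apply, Fin.sum_univ_succ] at h2
    simp only [Fin.val_zero, pow_zero, one_mul, Pi.zero_apply] at h2
    have e0 : face2 p (q + 1) 0 (⟨(c, K (c.1 0) (q + 1) σ), (hK1 _ hc0 _ σ hz').1⟩ : ZZ 𝒞 p (q + 2))
        = ⟨(c, σ), hz⟩ := by
      apply Subtype.ext
      apply Prod.ext
      · rfl
      · exact (hK1 _ hc0 _ σ hz').2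
    rw [e0] at h2
    rw [altd_apply, eq_neg_of_add_eq_zero_left h2, ← Finset.sum_neg_distrib]
    refine Finset.sum_congr rfl fun i _ => ?_
    have e1 : face2 p (q + 1) i.succ
        (⟨(c, K (c.1 0) (q + 1) σ), (hK1 _ hc0 _ σ hz').1⟩ : ZZ 𝒞 p (q + 2))
        = ⟨(c, K (c.1 0) q (sface q i σ)), (hK1 _ hc0 q _ ((range_sface q i σ).trans hz')).1⟩ := by
      apply Subtype.ext
      apply Prod.ext
      · rfl
      · exact hK2 _ hc0 q σ hz' i
    rw [e1]
    simp only [face2, Fin.val_succ, pow_succ]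
    ring

end Nerve

end Pool.Agent.Helper156.Nv
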