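import Pool.Agent.Helper156.Nv.Nerve

/-! Barycentric subdivision and small simplices. -/

namespace Pool.Agent.Helper156.Nv

universe u v w

open Finsupp

section Chains

/-- alternating boundary on free chains -/
noncomputable def bd {S : ℕ → Type u} (face : ∀ n, Fin (n + 2) → S (n + 1) → S n) (n : ℕ) :
    (S (n + 1) →₀ ℤ) →ₗ[ℤ] (S n →₀ ℤ) :=
  ∑ i : Fin (n + 2), ((-1 : ℤ) ^ (i : ℕ)) • Finsupp.lmapDomain ℤ ℤ (face n i)

theorem bd_single {S : ℕ → Type u} (face : ∀ n, Fin (n + 2) → S (n + 1) → S n) (n : ℕ)
    (σ : S (n + 1)) :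
    bd face n (single σ 1) = ∑ i : Fin (n + 2), ((-1 : ℤ) ^ (i : ℕ)) • single (face n i σ) (1 : ℤ) := by
  simp only [bd, LinearMap.sum_apply, LinearMap.smul_apply, lmapDomain_apply, mapDomain_single]

theorem bd_bd {S : ℕ → Type u} (face : ∀ n, Fin (n + 2) → S (n + 1) → S n)
    (h : ∀ n (i j : Fin (n + 2)) (σ : S (n + 2)), i ≤ j →
      face n i (face (n + 1) j.succ σ) = face n j (face (n + 1) i.castSucc σ))
    (n : ℕ) (z : S (n + 2) →₀ ℤ) : bd face n (bd face (n + 1) z) = 0 := by
  classical
  have : (bd face n).comp (bd face (n + 1)) = 0 := by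
    apply Finsupp.lhom_ext'
    intro σ
    apply LinearMap.ext_ring
    simp only [LinearMap.comp_apply, lsingle_apply, LinearMap.zero_apply]
    rw [bd_single, map_sum]
    simp only [map_smul, bd_single, Finset.smul_sum]
    ext τ
    simp only [Finsupp.coe_finsetSum, Finset.sum_apply, Finsupp.smul_apply, smul_eq_mul,
      Finsupp.coe_zero, Pi.zero_apply]
    apply alt_cancel n (fun i j => (single (face n i (face (n + 1) j σ)) (1 : ℤ)) τ)
    intro i j hij
    simp only [h n i j σ hij]
  exact LinearMap.congr_fun this z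

theorem altd_eq_ev {k : Type v} [CommRing k] {S : ℕ → Type u}
    (face : ∀ n, Fin (n + 2) → S (n + 1) → S n) (n : ℕ) (f : S n → k) (σ : S (n + 1)) :
    altd k face n f σ = Finsupp.linearCombination ℤ f (bd face n (single σ 1)) := by
  rw [bd_single, map_sum, altd_apply]
  refine Finset.sum_congr rfl fun i _ => ?_
  rw [map_smul, linearCombination_single, one_smul, zsmul_eq_mul]
  push_cast
  rfl

theorem ev_altd {k : Type v} [CommRing k] {S : ℕ → Type u}
    (face : ∀ n, Fin (n + 2) → S (n + 1) → S n) (n : ℕ) (f : S n → k) (z : S (n + 1) →₀ ℤ) :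
    Finsupp.linearCombination ℤ (altd k face n f) z =
      Finsupp.linearCombination ℤ f (bd face n z) := by
  have : Finsupp.linearCombination ℤ (altd k face n f) =
      (Finsupp.linearCombination ℤ f).comp (bd face n) := by
    apply Finsupp.lhom_ext'
    intro σ
    apply LinearMap.ext_ring
    simp only [LinearMap.comp_apply, lsingle_apply, linearCombination_single, one_smul]
    exact altd_eq_ev face n f σ
  exact LinearMap.congr_fun this z

/-- a linear map sends supported elements into a submodule if it does so on basis elements -/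
theorem supported_map {α : Type u} {M : Type v} [AddCommGroup M] (s : Set α)
    (L : (α →₀ ℤ) →ₗ[ℤ] M) (N : Submodule ℤ M) (h : ∀ a ∈ s, L (single a 1) ∈ N)
    (z : α →₀ ℤ) (hz : z ∈ Finsupp.supported ℤ ℤ s) : L z ∈ N := by
  rw [Finsupp.supported_eq_span_single] at hz
  have : Submodule.span ℤ ((fun i => single i (1 : ℤ)) '' s) ≤ N.comap L := by
    rw [Submodule.span_le]
    rintro _ ⟨a, ha, rfl⟩
    exact h a ha
  exact this hz

theorem single_mem_supported' {α : Type u} {s : Set α} {a : α} (h : a ∈ s) :
    (single a (1 : ℤ)) ∈ Finsupp.supported ℤ ℤ s :=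
  Finsupp.single_mem_supported ℤ _ h

end Chains

section Affine

/-- topological simplex -/
abbrev Dl (n : ℕ) := stdSimplex ℝ (Fin (n + 1))

/-- affine combination -/
noncomputable def affFun {n m : ℕ} (a : Fin (m + 1) → Dl n) (t : Dl m) : Dl n :=
  ⟨∑ i, t.1 i • (a i).1,
    (convex_stdSimplex ℝ (Fin (n + 1))).sum_mem (fun i _ => t.2.1 i) t.2.2 (fun i _ => (a i).2)⟩

theorem affFun_coe {n m : ℕ} (a : Fin (m + 1) → Dl n) (t : Dl m) :
    (affFun a t).1 = ∑ i, t.1 i • (a i).1 := rfl

theorem continuous_affFun {n m : ℕ} (a : Fin (m + 1) → Dl n) : Continuous (affFun a) := by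
  apply Continuous.subtype_mk
  apply continuous_finsetSum
  intro i _
  exact ((continuous_apply i).comp continuous_subtype_val).smul continuous_const

/-- the affine singular simplex spanned by a tuple of points -/
noncomputable def aff {n m : ℕ} (a : Fin (m + 1) → Dl n) : C(Dl m, Dl n) :=
  ⟨affFun a, continuous_affFun a⟩

theorem aff_coe {n m : ℕ} (a : Fin (m + 1) → Dl n) (t : Dl m) :
    (aff a t).1 = ∑ i, t.1 i • (a i).1 := rfl

/-- vertices -/
noncomputable def vert (n : ℕ) : Fin (n + 1) → Dl n := fun i => stdSimplex.vertex i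

theorem vert_self (n : ℕ) (i : Fin (n + 1)) : (vert n i).1 i = 1 := by
  change (Pi.single i 1 : Fin (n + 1) → ℝ) i = 1
  simp

theorem vert_ne (n : ℕ) (i j : Fin (n + 1)) (h : j ≠ i) : (vert n i).1 j = 0 := by
  change (Pi.single i 1 : Fin (n + 1) → ℝ) j = 0
  simp [h]

theorem aff_vert {n m : ℕ} (a : Fin (m + 1) → Dl n) (i : Fin (m + 1)) :
    aff a (vert m i) = a i := by
  apply Subtype.ext
  rw [aff_coe, Finset.sum_eq_single i]
  · rw [vert_self, one_smul]
  · intro j _ hj
    rw [vert_ne _ _ _ hj, zero_smul]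
  · simp

theorem aff_comp {n m l : ℕ} (a : Fin (m + 1) → Dl n) (b : Fin (l + 1) → Dl m) :
    (aff a).comp (aff b) = aff (fun i => aff a (b i)) := by
  apply ContinuousMap.ext
  intro t
  apply Subtype.ext
  rw [ContinuousMap.comp_apply, aff_coe, aff_coe, aff_coe]
  simp only [aff_coe, Finset.smul_sum, Finset.sum_apply, Pi.smul_apply, smul_eq_mul,
    Finset.sum_smul]
  rw [Finset.sum_comm]
  refine Finset.sum_congr rfl fun i _ => Finset.sum_congr rfl fun j _ => ?_
  rw [mul_smul]

theorem aff_vert_eq (n : ℕ) : aff (vert n) = ContinuousMap.id _ := by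
  apply ContinuousMap.ext
  intro t
  apply Subtype.ext
  rw [aff_coe]
  funext j
  simp only [Finset.sum_apply, Pi.smul_apply, smul_eq_mul, ContinuousMap.id_apply]
  rw [Finset.sum_eq_single j]
  · rw [vert_self, mul_one]
  · intro i _ hi
    rw [vert_ne _ _ _ hi.symm, mul_zero]
  · simp

theorem map_eq_aff {n m : ℕ} (f : Fin (m + 1) → Fin (n + 1)) :
    (⟨stdSimplex.map f, stdSimplex.continuous_map _⟩ : C(Dl m, Dl n)) =
      aff (fun i => vert n (f i)) := by
  classical
  apply ContinuousMap.ext
  intro t
  apply Subtype.ext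
  rw [aff_coe]
  funext j
  change (FunOnFinite.linearMap ℝ ℝ f t) j = _
  rw [FunOnFinite.linearMap_apply_apply]
  simp only [Finset.sum_apply, Pi.smul_apply, smul_eq_mul]
  rw [Finset.sum_filter]
  refine Finset.sum_congr rfl fun i _ => ?_
  by_cases h : f i = j
  · subst h
    rw [if_pos rfl, vert_self, mul_one]
    rfl
  · rw [if_neg h, vert_ne _ _ _ (Ne.symm h), mul_zero]

theorem map_dist_le {n m : ℕ} (a : Fin (m + 1) → Dl n) (r : ℝ)
    (h : ∀ i j, dist (a i) (a j) ≤ r) (s t : Dl m) : dist (aff a s) (aff a t) ≤ r := by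
  have key : ∀ (x : Dl n), (∀ i, dist x (a i) ≤ r) → ∀ t : Dl m, dist x (aff a t) ≤ r := by
    intro x hx t
    have hconv : Convex ℝ (Metric.closedBall x.1 r) := convex_closedBall _ _
    have h1 : (aff a t).1 ∈ Metric.closedBall x.1 r := by
      rw [aff_coe]
      apply hconv.sum_mem (fun i _ => t.2.1 i) t.2.2
      intro i _
      rw [Metric.mem_closedBall, dist_comm]
      exact hx i
    rw [Metric.mem_closedBall, dist_comm] at h1
    exact h1
  apply key
  intro i
  rw [dist_comm]
  apply key
  intro j
  exact h i j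

theorem dist_face_le {n : ℕ} (i : Fin (n + 2)) (s t : Dl n) :
    dist (aff (fun j => vert (n + 1) (i.succAbove j)) s)
      (aff (fun j => vert (n + 1) (i.succAbove j)) t) ≤ dist s t := by
  rw [Subtype.dist_eq, Subtype.dist_eq, dist_pi_le_iff dist_nonneg]
  intro l
  have key : ∀ s : Dl n, (aff (fun j => vert (n + 1) (i.succAbove j)) s).1 l =
      if h : ∃ j, i.succAbove j = l then s.1 h.choose else 0 := by
    intro s
    rw [aff_coe]
    simp only [Finset.sum_apply, Pi.smul_apply, smul_eq_mul]
    split_ifs with h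
    · rw [Finset.sum_eq_single h.choose]
      · have h2 : (vert (n + 1) (i.succAbove h.choose)).1 l = 1 := by
          have h3 := vert_self (n + 1) (i.succAbove h.choose)
          have h4 := h.choose_spec
          rwa [h4] at h3 ⊢
        rw [h2, mul_one]
      · intro j _ hj
        rw [vert_ne, mul_zero]
        intro he
        apply hj
        apply Fin.succAbove_right_injective (p := i)
        rw [h.choose_spec, he]
      · simp
    · apply Finset.sum_eq_zero
      intro j _
      rw [vert_ne, mul_zero]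
      intro he
      exact h ⟨j, he.symm⟩
  rw [key, key]
  split_ifs with h
  · exact dist_le_pi_dist _ _ _
  · rw [dist_self]; exact dist_nonneg

end Affine

section AffineSubdiv

/-- tuples of points in a simplex -/
abbrev LS (n k : ℕ) := Fin (k + 1) → Dl n

def lface (n k : ℕ) (i : Fin (k + 2)) (a : LS n (k + 1)) : LS n k := a ∘ i.succAbove

theorem lface_lface (n k : ℕ) (i j : Fin (k + 2)) (a : LS n (k + 2)) (h : i ≤ j) :
    lface n k i (lface n (k + 1) j.succ a) = lface n k j (lface n (k + 1) i.castSucc a) := by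
  funext x
  simp only [lface, Function.comp_apply]
  rw [succAbove_comm i j h x]

/-- prepend a point to tuples -/
noncomputable def cone (n k : ℕ) (b : Dl n) : (LS n k →₀ ℤ) →ₗ[ℤ] (LS n (k + 1) →₀ ℤ) :=
  Finsupp.lmapDomain ℤ ℤ (fun a => (Fin.cons b a : LS n (k + 1)))

theorem cone_single (n k : ℕ) (b : Dl n) (a : LS n k) (c : ℤ) :
    cone n k b (single a c) = single (Fin.cons b a : LS n (k + 1)) c := by
  simp [cone]

noncomputable abbrev lbd (n k : ℕ) : (LS n (k + 1) →₀ ℤ) →ₗ[ℤ] (LS n k →₀ ℤ) := bd (lface n) k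

theorem lbd_cone_succ (n k : ℕ) (b : Dl n) (z : LS n (k + 1) →₀ ℤ) :
    lbd n (k + 1) (cone n (k + 1) b z) = z - cone n k b (lbd n k z) := by
  have : (lbd n (k + 1)).comp (cone n (k + 1) b) =
      LinearMap.id - (cone n k b).comp (lbd n k) := by
    apply Finsupp.lhom_ext'
    intro a
    apply LinearMap.ext_ring
    simp only [LinearMap.comp_apply, lsingle_apply, LinearMap.sub_apply, LinearMap.id_apply]
    rw [cone_single, lbd, lbd, bd_single, bd_single, Fin.sum_univ_succ, map_sum, sub_eq_add_neg,
      ← Finset.sum_neg_distrib]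
    congr 1
    · simp only [Fin.val_zero, pow_zero, one_smul]
      congr 1
    · refine Finset.sum_congr rfl fun i _ => ?_
      rw [map_smul, cone_single, ← neg_smul]
      congr 1
      · simp [pow_succ]
      · congr 1
        funext x
        refine Fin.cases ?_ (fun x => ?_) x
        · simp [lface]
        · simp [lface, Fin.removeNth]
  exact LinearMap.congr_fun this z

theorem lbd_cone_zero (n : ℕ) (b : Dl n) (a : LS n 0) :
    lbd n 0 (cone n 0 b (single a 1)) = single a 1 - single (fun _ => b) 1 := by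
  rw [cone_single, lbd, bd_single, Fin.sum_univ_two]
  simp only [Fin.val_zero, pow_zero, one_smul, Fin.val_one, pow_one, neg_smul]
  rw [← sub_eq_add_neg]
  congr 2
  funext x
  have hx : x = 0 := Subsingleton.elim (α := Fin 1) x 0
  subst hx
  simp [lface]

/-- barycenter of a tuple -/
noncomputable def bary {n k : ℕ} (a : LS n k) : Dl n := aff a stdSimplex.barycenter

noncomputable def sd (n : ℕ) : ∀ k, (LS n k →₀ ℤ) →ₗ[ℤ] (LS n k →₀ ℤ)
  | 0 => LinearMap.id
  | (k + 1) => Finsupp.linearCombination ℤ
      (fun a => cone n k (bary a) (sd n k (lbd n k (single a 1))))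

noncomputable def TL (n : ℕ) : ∀ k, (LS n k →₀ ℤ) →ₗ[ℤ] (LS n (k + 1) →₀ ℤ)
  | 0 => 0
  | (k + 1) => Finsupp.linearCombination ℤ
      (fun a => cone n (k + 1) (bary a) (single a 1 - TL n k (lbd n k (single a 1))))

theorem sd_zero (n : ℕ) (z : LS n 0 →₀ ℤ) : sd n 0 z = z := rfl

theorem sd_succ (n k : ℕ) (a : LS n (k + 1)) :
    sd n (k + 1) (single a 1) = cone n k (bary a) (sd n k (lbd n k (single a 1))) := by
  rw [sd, linearCombination_single, one_smul]

theorem TL_zero (n : ℕ) (z : LS n 0 →₀ ℤ) : TL n 0 z = 0 := rfl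

theorem TL_succ (n k : ℕ) (a : LS n (k + 1)) :
    TL n (k + 1) (single a 1) =
      cone n (k + 1) (bary a) (single a 1 - TL n k (lbd n k (single a 1))) := by
  rw [TL, linearCombination_single, one_smul]

theorem lbd_sd (n k : ℕ) (z : LS n (k + 1) →₀ ℤ) :
    lbd n k (sd n (k + 1) z) = sd n k (lbd n k z) := by
  induction k with
  | zero =>
    have : (lbd n 0).comp (sd n 1) = (sd n 0).comp (lbd n 0) := by
      apply Finsupp.lhom_ext'
      intro a
      apply LinearMap.ext_ring
      simp only [LinearMap.comp_apply, lsingle_apply]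
      rw [sd_succ, sd_zero]
      have h : lbd n 0 (single a 1) = single (lface n 0 0 a) 1 - single (lface n 0 1 a) 1 := by
        rw [lbd, bd_single, Fin.sum_univ_two]
        simp [sub_eq_add_neg]
      rw [h, map_sub, map_sub, lbd_cone_zero, lbd_cone_zero]
      abel_nf
    exact LinearMap.congr_fun this z
  | succ k ih =>
    have : (lbd n (k + 1)).comp (sd n (k + 2)) = (sd n (k + 1)).comp (lbd n (k + 1)) := by
      apply Finsupp.lhom_ext'
      intro a
      apply LinearMap.ext_ring
      simp only [LinearMap.comp_apply, lsingle_apply]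
      rw [sd_succ, lbd_cone_succ, ih, bd_bd (lface n) (lface_lface n), map_zero, map_zero, sub_zero]
    exact LinearMap.congr_fun this z

theorem lbd_TL (n k : ℕ) (z : LS n (k + 1) →₀ ℤ) :
    lbd n (k + 1) (TL n (k + 1) z) + TL n k (lbd n k z) = z - sd n (k + 1) z := by
  induction k with
  | zero =>
    have : (lbd n 1).comp (TL n 1) + (TL n 0).comp (lbd n 0) = LinearMap.id - (sd n 1) := by
      apply Finsupp.lhom_ext'
      intro a
      apply LinearMap.ext_ring
      simp only [LinearMap.comp_apply, lsingle_apply, LinearMap.add_apply, LinearMap.sub_apply,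
        LinearMap.id_apply]
      rw [TL_succ, TL_zero, sub_zero, lbd_cone_succ, add_zero, sd_succ, sd_zero]
    exact LinearMap.congr_fun this z
  | succ k ih =>
    have : (lbd n (k + 2)).comp (TL n (k + 2)) + (TL n (k + 1)).comp (lbd n (k + 1)) =
        LinearMap.id - (sd n (k + 2)) := by
      apply Finsupp.lhom_ext'
      intro a
      apply LinearMap.ext_ring
      simp only [LinearMap.comp_apply, lsingle_apply, LinearMap.add_apply, LinearMap.sub_apply,
        LinearMap.id_apply]
      rw [TL_succ, lbd_cone_succ, map_sub, sd_succ]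
      have h := ih (lbd n (k + 1) (single a 1))
      rw [bd_bd (lface n) (lface_lface n), map_zero, add_zero] at h
      rw [h]
      have h2 : lbd n (k + 1) (single a 1) - (lbd n (k + 1) (single a 1) -
        sd n (k + 1) (lbd n (k + 1) (single a 1))) = sd n (k + 1) (lbd n (k + 1) (single a 1)) := by
        abel
      rw [h2]
      abel
    exact LinearMap.congr_fun this z

/-- push tuples forward along an affine map -/
noncomputable def lpush {m n : ℕ} (c : Fin (m + 1) → Dl n) (k : ℕ) :
    (LS m k →₀ ℤ) →ₗ[ℤ] (LS n k →₀ ℤ) :=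
  Finsupp.lmapDomain ℤ ℤ (fun a i => aff c (a i))

theorem lpush_single {m n : ℕ} (c : Fin (m + 1) → Dl n) (k : ℕ) (a : LS m k) (x : ℤ) :
    lpush c k (single a x) = single (fun i => aff c (a i)) x := by
  simp [lpush]

theorem lpush_lbd {m n : ℕ} (c : Fin (m + 1) → Dl n) (k : ℕ) (z : LS m (k + 1) →₀ ℤ) :
    lpush c k (lbd m k z) = lbd n k (lpush c (k + 1) z) := by
  have : (lpush c k).comp (lbd m k) = (lbd n k).comp (lpush c (k + 1)) := by
    apply Finsupp.lhom_ext'
    intro a
    apply LinearMap.ext_ring
    simp only [LinearMap.comp_apply, lsingle_apply]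
    rw [lpush_single, lbd, lbd, bd_single, bd_single, map_sum]
    refine Finset.sum_congr rfl fun i _ => ?_
    rw [map_smul, lpush_single]
    rfl
  exact LinearMap.congr_fun this z

theorem lpush_cone {m n : ℕ} (c : Fin (m + 1) → Dl n) (k : ℕ) (b : Dl m) (z : LS m k →₀ ℤ) :
    lpush c (k + 1) (cone m k b z) = cone n k (aff c b) (lpush c k z) := by
  have : (lpush c (k + 1)).comp (cone m k b) = (cone n k (aff c b)).comp (lpush c k) := by
    apply Finsupp.lhom_ext'
    intro a
    apply LinearMap.ext_ring
    simp only [LinearMap.comp_apply, lsingle_apply]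
    rw [lpush_single, cone_single, cone_single, lpush_single]
    congr 1
    funext i
    refine Fin.cases ?_ (fun i => ?_) i
    · simp
    · simp
  exact LinearMap.congr_fun this z

theorem bary_push {m n k : ℕ} (c : Fin (m + 1) → Dl n) (a : LS m k) :
    aff c (bary a) = bary (fun i => aff c (a i)) := by
  have := congrArg (fun f => f stdSimplex.barycenter) (aff_comp c a)
  exact this

theorem lpush_sd {m n : ℕ} (c : Fin (m + 1) → Dl n) (k : ℕ) (z : LS m k →₀ ℤ) :
    lpush c k (sd m k z) = sd n k (lpush c k z) := by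
  induction k with
  | zero => rfl
  | succ k ih =>
    have : (lpush c (k + 1)).comp (sd m (k + 1)) = (sd n (k + 1)).comp (lpush c (k + 1)) := by
      apply Finsupp.lhom_ext'
      intro a
      apply LinearMap.ext_ring
      simp only [LinearMap.comp_apply, lsingle_apply]
      rw [lpush_single, sd_succ, sd_succ, lpush_cone, ih, lpush_lbd, lpush_single, bary_push]
    exact LinearMap.congr_fun this z

theorem lpush_TL {m n : ℕ} (c : Fin (m + 1) → Dl n) (k : ℕ) (z : LS m k →₀ ℤ) :
    lpush c (k + 1) (TL m k z) = TL n k (lpush c k z) := by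
  induction k with
  | zero => rw [TL_zero, TL_zero, map_zero]
  | succ k ih =>
    have : (lpush c (k + 2)).comp (TL m (k + 1)) = (TL n (k + 1)).comp (lpush c (k + 1)) := by
      apply Finsupp.lhom_ext'
      intro a
      apply LinearMap.ext_ring
      simp only [LinearMap.comp_apply, lsingle_apply]
      rw [lpush_single, TL_succ, TL_succ, lpush_cone, map_sub, ih, lpush_lbd, lpush_single,
        bary_push]
    exact LinearMap.congr_fun this z

end AffineSubdiv

end Pool.Agent.Helper156.Nv
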